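import Pool.Agent.Lib.SymForcing.Defs

/-!
The statements `M(C, ↪ [0,1]^ℝ)` and `CAC_fin` read inside a structure `(M, E)`.
Every quantifier ranges over `M`.
-/

namespace Pool.Agent.MP_d9473e_lc

open Pool.Agent.Lib.Forcing Pool.Agent.Lib.SymForcing

universe u

/-- Six elements of `M`: a carrier, the graphs of addition, multiplication and order, zero, one. -/
structure Fld (M : Type u) where
  R : M
  add : M
  mul : M
  le : M
  zero : M
  one : M

variable {M : Type u} (E : M → M → Prop)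

/-- `f` assigns to each pair of elements of `A` exactly one value, which lies in `B`. -/
def Op (f A B : M) : Prop := ∀ x y, E x A → E y A → ∃ z, E z B ∧ ∀ z', Ap2 E f x y z' ↔ z' = z

/-- `f` is an associative and commutative operation on `A` with neutral element `e`. -/
def CommMon (f A e : M) : Prop :=
  Op E f A A ∧ E e A ∧ (∀ x, E x A → Ap2 E f e x x) ∧
    (∀ x y z, E x A → E y A → Ap2 E f x y z → Ap2 E f y x z) ∧
    ∀ x y z u v w, E x A → E y A → E z A → Ap2 E f x y u → Ap2 E f y z v → Ap2 E f u z w →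
      Ap2 E f x v w

variable (K : Fld M)

/-- `K` is a field. -/
def IsFld : Prop :=
  CommMon E K.add K.R K.zero ∧ CommMon E K.mul K.R K.one ∧ K.zero ≠ K.one ∧
    (∀ x, E x K.R → ∃ y, E y K.R ∧ Ap2 E K.add y x K.zero) ∧
    (∀ x, E x K.R → x ≠ K.zero → ∃ y, E y K.R ∧ Ap2 E K.mul x y K.one) ∧
    ∀ x y z s u v w, E x K.R → E y K.R → E z K.R → Ap2 E K.add y z s → Ap2 E K.mul x y u →
      Ap2 E K.mul x z v → Ap2 E K.add u v w → Ap2 E K.mul x s w

/-- The order of `K` is a linear order compatible with the operations. -/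
def IsOrd : Prop :=
  (∀ x y, E x K.R → E y K.R → Ap E K.le x y ∨ Ap E K.le y x) ∧
    (∀ x y, E x K.R → E y K.R → Ap E K.le x y → Ap E K.le y x → x = y) ∧
    (∀ x y z, E x K.R → E y K.R → E z K.R → Ap E K.le x y → Ap E K.le y z → Ap E K.le x z) ∧
    (∀ x y z u v, E x K.R → E y K.R → E z K.R → Ap E K.le x y → Ap2 E K.add x z u →
      Ap2 E K.add y z v → Ap E K.le u v) ∧
    ∀ x y z, E x K.R → E y K.R → Ap E K.le K.zero x → Ap E K.le K.zero y → Ap2 E K.mul x y z →
      Ap E K.le K.zero z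

/-- `b` is an upper bound of `A` in `K`. -/
def UB (A b : M) : Prop := E b K.R ∧ ∀ a, E a A → Ap E K.le a b

/-- `K` is a complete ordered field, that is, a copy of the real line of `(M, E)`. -/
def IsReals : Prop :=
  IsFld E K ∧ IsOrd E K ∧ ∀ A, Sub E A K.R → (∃ a, E a A) → (∃ b, UB E K A b) →
    ∃ s, UB E K A s ∧ ∀ b, UB E K A b → Ap E K.le s b

/-- `x < y` in `K`. -/
def KLt (x y : M) : Prop := Ap E K.le x y ∧ x ≠ y

/-- `d` is a metric on `X`. -/
def IsMetric (d X : M) : Prop :=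
  Op E d X K.R ∧ (∀ x y, E x X → E y X → (Ap2 E d x y K.zero ↔ x = y)) ∧
    (∀ x y a, E x X → E y X → Ap2 E d x y a → Ap2 E d y x a) ∧
    ∀ x y z a b c s, E x X → E y X → E z X → Ap2 E d x y a → Ap2 E d y z b → Ap2 E d x z c →
      Ap2 E K.add a b s → Ap E K.le c s

/-- `τ` is the topology on `X` induced by the metric `d`. -/
def Induces (d X τ : M) : Prop :=
  ∀ U, E U τ ↔ Sub E U X ∧ ∀ x, E x U → ∃ ε, E ε K.R ∧ KLt E K K.zero ε ∧
    ∀ y a, E y X → Ap2 E d x y a → KLt E K a ε → E y U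

/-- Every open cover of `(X, τ)` has a finite subcover. -/
def IsCompact (X τ : M) : Prop :=
  ∀ C, Sub E C τ → (∀ x, E x X → ∃ U, E U C ∧ E x U) →
    ∃ D, Sub E D C ∧ IsFin E D ∧ ∀ x, E x X → ∃ U, E U D ∧ E x U

/-- `g` is a point of the cube `[0,1]^ℝ`. -/
def CubePt (g : M) : Prop :=
  Fn E K.R (fun _ y => E y K.R ∧ Ap E K.le K.zero y ∧ Ap E K.le y K.one) g

/-- `|a - b| < ε`. -/
def Near (a b ε : M) : Prop :=
  ∃ s t, Ap2 E K.add a ε s ∧ Ap2 E K.add b ε t ∧ KLt E K b s ∧ KLt E K a t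

/-- `W` is an open subset of the cube `[0,1]^ℝ` for the product topology. -/
def CubeOpen (W : M) : Prop :=
  ∀ g, E g W → CubePt E K g ∧ ∃ F ε, IsFin E F ∧ Sub E F K.R ∧ E ε K.R ∧ KLt E K K.zero ε ∧
    ∀ h, CubePt E K h → (∀ i a b, E i F → Ap E g i a → Ap E h i b → Near E K a b ε) → E h W

/-- `(X, τ)` is homeomorphic to a subspace of the cube: some one-to-one map `e` into the cube
has the open sets of `X` as the preimages of the open sets of the cube. -/
def Embeds (X τ : M) : Prop :=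
  ∃ e, Fn E X (fun _ g => CubePt E K g) e ∧ (∀ x x' g, Ap E e x g → Ap E e x' g → x = x') ∧
    ∀ U, E U τ ↔ Sub E U X ∧ ∃ W, CubeOpen E K W ∧ ∀ x g, Ap E e x g → (E x U ↔ E g W)

/-- Every compact metrizable space is embeddable in the Tychonoff cube `[0,1]^ℝ`. -/
def CompactMetrizableEmbeds : Prop :=
  ∀ K : Fld M, IsReals E K → ∀ X τ, (∃ d, IsMetric E K d X ∧ Induces E K d X τ) →
    IsCompact E X τ → Embeds E K X τ

/-- Every denumerable family of non-empty finite sets has a choice function. -/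
def CACfin : Prop :=
  ∀ A, IsDenum E A → (∀ a, E a A → (∃ z, E z a) ∧ IsFin E a) → ∃ f, Fn E A (fun a y => E y a) f

end Pool.Agent.MP_d9473e_lc
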